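import Mathlib

set_option autoImplicit false

/-!
For every `n ≥ 3` there are `n` pairwise disjoint nonempty compact convex sets in `E_n` whose union has a
visual hull that is not a union of fewer than `2 ^ n` convex sets.
-/

namespace Pool.Agent.Results.MP_d086ed_co.HullNeedsTwoPowPieces

/-- Two sets are equivalent if they have the same image under the orthogonal projection onto
each one-dimensional linear subspace. -/
def ProjEquiv {n : ℕ} (A B : Set (EuclideanSpace ℝ (Fin n))) : Prop :=
  ∀ L : Submodule ℝ (EuclideanSpace ℝ (Fin n)), Module.finrank ℝ L = 1 →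
    L.starProjection '' A = L.starProjection '' B

/-- The visual hull of `S`: the union of all sets equivalent to `S`. -/
def visualHull {n : ℕ} (S : Set (EuclideanSpace ℝ (Fin n))) : Set (EuclideanSpace ℝ (Fin n)) :=
  ⋃₀ {B | ProjEquiv B S}

/-- The `i`-th cell: `i`-th coordinate positive, the others negative. -/
def cell {n : ℕ} (i : Fin n) : Set (EuclideanSpace ℝ (Fin n)) :=
  {y | 0 < y i ∧ ∀ j, j ≠ i → y j < 0}

theorem inner_eq_sum {n : ℕ} (u v : EuclideanSpace ℝ (Fin n)) :
    inner ℝ u v = ∑ j, u j * v j := by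
  rw [PiLp.inner_apply]
  refine Finset.sum_congr rfl fun j _ => ?_
  simp [mul_comm]

/-- A point of the visual hull: every hyperplane through it meets the set. -/
theorem mem_visualHull {n : ℕ} (S : Set (EuclideanSpace ℝ (Fin n)))
    (x : EuclideanSpace ℝ (Fin n)) :
    x ∈ visualHull S ↔ ∀ u : EuclideanSpace ℝ (Fin n), u ≠ 0 → ∃ y ∈ S, inner ℝ u (y - x) = 0 := by
  constructor
  · rintro ⟨B, hB, hx⟩ u hu
    have h1 : Module.finrank ℝ (Submodule.span ℝ ({u} : Set (EuclideanSpace ℝ (Fin n)))) = 1 :=
      finrank_span_singleton hu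
    have h2 := hB _ h1
    have h3 : (Submodule.span ℝ ({u} : Set (EuclideanSpace ℝ (Fin n)))).starProjection x ∈
        (Submodule.span ℝ ({u} : Set (EuclideanSpace ℝ (Fin n)))).starProjection '' S := by
      rw [← h2]; exact ⟨x, hx, rfl⟩
    obtain ⟨y, hy, hyx⟩ := h3
    refine ⟨y, hy, ?_⟩
    rw [Submodule.starProjection_singleton, Submodule.starProjection_singleton] at hyx
    have h4 := smul_left_injective ℝ hu hyx
    have hn : ((‖u‖ ^ 2 : ℝ)) ≠ 0 := by
      have := norm_pos_iff.2 hu
      positivity
    have h5 : inner ℝ u y = inner ℝ u x := by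
      have h4' : inner ℝ u y / (‖u‖ ^ 2 : ℝ) = inner ℝ u x / (‖u‖ ^ 2 : ℝ) := by simpa using h4
      field_simp at h4'
      exact h4'
    rw [inner_sub_right, h5, sub_self]
  · intro h
    refine ⟨insert x S, ?_, Set.mem_insert _ _⟩
    intro L hL
    obtain ⟨v, hv, hsp⟩ := finrank_eq_one_iff'.1 hL
    rw [Set.image_insert_eq]
    apply Set.insert_eq_of_mem
    obtain ⟨y, hy, hyx⟩ := h (v : EuclideanSpace ℝ (Fin n)) (by simpa using hv)
    refine ⟨y, hy, ?_⟩
    have hspan : L = Submodule.span ℝ {(v : EuclideanSpace ℝ (Fin n))} := by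
      apply le_antisymm
      · intro w hw
        obtain ⟨c, hc⟩ := hsp ⟨w, hw⟩
        rw [Submodule.mem_span_singleton]
        exact ⟨c, by simpa using congrArg Subtype.val hc⟩
      · rw [Submodule.span_le]
        intro w hw
        rw [Set.mem_singleton_iff.1 hw]
        exact v.2
    have h0 : L.starProjection (y - x) = 0 := by
      rw [hspan, Submodule.starProjection_singleton, hyx]
      simp
    rw [map_sub, sub_eq_zero] at h0
    exact h0

theorem exists_st (α β c : ℝ) (h : 0 < α * β) : ∃ s t : ℝ, 0 < s ∧ 0 < t ∧ s * α - t * β = c := by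
  have hα : α ≠ 0 := by rintro rfl; simp at h
  have hβ : β ≠ 0 := by rintro rfl; simp at h
  refine ⟨(c + (|c| + 1) / |β| * β) / α, (|c| + 1) / |β|, ?_, by positivity, ?_⟩
  · rcases lt_or_gt_of_ne hβ with hb | hb
    · have ha : α < 0 := by
        by_contra hcon
        have : 0 < α := lt_of_le_of_ne (not_lt.1 hcon) (Ne.symm hα)
        nlinarith
      rw [abs_of_neg hb]
      have e : (|c| + 1) / -β * β = -(|c| + 1) := by field_simp
      rw [e]
      apply div_pos_of_neg_of_neg _ ha
      linarith [le_abs_self c]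
    · have ha : 0 < α := by
        by_contra hcon
        have : α < 0 := lt_of_le_of_ne (not_lt.1 hcon) hα
        nlinarith
      rw [abs_of_pos hb]
      have e : (|c| + 1) / β * β = |c| + 1 := by field_simp
      rw [e]
      apply div_pos _ ha
      linarith [neg_abs_le c]
  · field_simp
    ring

/-- Every hyperplane through a point off the coordinate hyperplanes meets one of the cells. -/
theorem open_hit {n : ℕ} (hn : 3 ≤ n) (x : EuclideanSpace ℝ (Fin n)) (hx : ∀ j, x j ≠ 0)
    (u : EuclideanSpace ℝ (Fin n)) (hu : u ≠ 0) :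
    ∃ i, ∃ a ∈ cell i, inner ℝ u (a - x) = 0 := by
  classical
  have hex : ∃ j, u j ≠ 0 := by
    by_contra hcon
    push Not at hcon
    exact hu (by ext j; simpa using hcon j)
  obtain ⟨j, hj⟩ := hex
  by_cases hone : ∀ k, k ≠ j → u k = 0
  · -- hyperplane parallel to a coordinate hyperplane
    have key : ∀ a : EuclideanSpace ℝ (Fin n), a j = x j → inner ℝ u (a - x) = 0 := by
      intro a ha
      rw [inner_eq_sum]
      apply Finset.sum_eq_zero
      intro k _
      by_cases hk : k = j
      · subst hk; simp [ha]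
      · rw [hone k hk]; simp
    rcases lt_or_gt_of_ne (hx j) with hneg | hpos
    · obtain ⟨i, hi⟩ : ∃ i : Fin n, i ≠ j := by
        have : Nontrivial (Fin n) := Fin.nontrivial_iff_two_le.2 (by omega)
        exact exists_ne j
      refine ⟨i, WithLp.toLp 2 (fun k => if k = j then x j else if k = i then 1 else -1), ?_, ?_⟩
      · refine ⟨?_, ?_⟩
        · simp [hi]
        · intro k hk
          by_cases hkj : k = j
          · simp [hkj, hneg]
          · simp [hkj, hk]
      · apply key; simp
    · refine ⟨j, WithLp.toLp 2 (fun k => if k = j then x j else -1), ?_, ?_⟩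
      · refine ⟨?_, ?_⟩
        · simpa using hpos
        · intro k hk
          simp [hk]
      · apply key; simp
  · push Not at hone
    obtain ⟨k, hkj, hk⟩ := hone
    have hjk : 0 < u j * u k ∨ 0 < - (u j * u k) := by
      rcases lt_trichotomy (u j * u k) 0 with h | h | h
      · right; linarith
      · exact absurd h (mul_ne_zero hj hk)
      · left; exact h
    -- generic point: value s at j, value t at k, values b elsewhere
    have gen : ∀ (s t : ℝ) (b : Fin n → ℝ),
        inner ℝ u ((WithLp.toLp 2 (fun l => if l = j then s else if l = k then t else b l) :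
          EuclideanSpace ℝ (Fin n)) - x) =
        s * u j + t * u k + (∑ l, (if l = j then 0 else if l = k then 0 else u l * b l)
          - ∑ l, u l * x l) := by
      intro s t b
      rw [inner_eq_sum]
      have e1 : ∀ l, u l * ((WithLp.toLp 2 (fun l => if l = j then s else if l = k then t else b l) :
          EuclideanSpace ℝ (Fin n)) - x) l =
          (if l = j then s * u j else 0) + (if l = k then t * u k else 0) +
          ((if l = j then 0 else if l = k then 0 else u l * b l) - u l * x l) := by
        intro l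
        by_cases h1 : l = j
        · subst h1
          simp [Ne.symm hkj]
          ring
        · by_cases h2 : l = k
          · subst h2
            simp [h1]
            ring
          · simp [h1, h2]
            ring
      rw [Finset.sum_congr rfl (fun l _ => e1 l), Finset.sum_add_distrib, Finset.sum_add_distrib,
        Finset.sum_sub_distrib]
      simp
    rcases hjk with hpos | hneg
    · obtain ⟨s, t, hs, ht, hst⟩ := exists_st (u j) (u k)
        (-(∑ l, (if l = j then 0 else if l = k then 0 else u l * (-1)) - ∑ l, u l * x l)) hpos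
      refine ⟨j, WithLp.toLp 2 (fun l => if l = j then s else if l = k then -t else -1), ?_, ?_⟩
      · refine ⟨by simpa using hs, ?_⟩
        intro l hl
        by_cases h2 : l = k
        · subst h2; simp [hl, ht]
        · simp [hl, h2]
      · rw [gen s (-t) (fun _ => -1)]
        linarith
    · obtain ⟨i, hi⟩ : ∃ i : Fin n, i ∉ ({j, k} : Finset (Fin n)) := by
        by_contra hcon
        push Not at hcon
        have hc : Finset.card (Finset.univ : Finset (Fin n)) ≤ ({j, k} : Finset (Fin n)).card :=
          Finset.card_le_card (fun i _ => hcon i)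
        have h2 : ({j, k} : Finset (Fin n)).card ≤ 2 := Finset.card_le_two
        rw [Finset.card_univ, Fintype.card_fin] at hc
        omega
      simp only [Finset.mem_insert, Finset.mem_singleton, not_or] at hi
      obtain ⟨hij, hik⟩ := hi
      obtain ⟨s, t, hs, ht, hst⟩ := exists_st (u j) (-u k)
        (∑ l, (if l = j then 0 else if l = k then 0 else u l * (if l = i then 1 else -1))
          - ∑ l, u l * x l) (by linarith)
      refine ⟨i, WithLp.toLp 2 (fun l => if l = j then -s else if l = k then -t else
        (if l = i then 1 else -1)), ?_, ?_⟩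
      · refine ⟨by simp [hij, hik], ?_⟩
        intro l hl
        by_cases h1 : l = j
        · subst h1; simp [hs]
        · by_cases h2 : l = k
          · subst h2; simp [h1, ht]
          · simp [h1, h2, hl]
      · rw [gen (-s) (-t) (fun l => if l = i then 1 else -1)]
        linarith

theorem isOpen_cell {n : ℕ} (i : Fin n) : IsOpen (cell i) := by
  have : (cell i : Set (EuclideanSpace ℝ (Fin n))) =
      {y | 0 < y i} ∩ ⋂ j, {y | j ≠ i → y j < 0} := by
    ext y; simp [cell]
  rw [this]
  refine IsOpen.inter (isOpen_lt continuous_const (by fun_prop)) ?_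
  refine isOpen_iInter_of_finite fun j => ?_
  by_cases hj : j = i
  · simp [hj]
  · simp only [ne_eq, hj, not_false_eq_true, forall_const]
    exact isOpen_lt (by fun_prop) continuous_const

theorem convex_cell {n : ℕ} (i : Fin n) : Convex ℝ (cell i) := by
  intro y hy z hz a b ha hb hab
  refine ⟨?_, ?_⟩
  · have h1 := hy.1
    have h2 := hz.1
    show 0 < a * y i + b * z i
    rcases ha.eq_or_lt with h | h
    · have : b = 1 := by linarith
      rw [← h, this]; linarith
    · nlinarith [mul_pos h h1, mul_nonneg hb h2.le]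
  · intro j hj
    have h1 := hy.2 j hj
    have h2 := hz.2 j hj
    show a * y j + b * z j < 0
    rcases ha.eq_or_lt with h | h
    · have : b = 1 := by linarith
      rw [← h, this]; linarith
    · nlinarith [mul_pos h (neg_pos.2 h1), mul_nonneg hb (neg_pos.2 h2).le]

/-- Finitely many points in the cells suffice for a given centre. -/
theorem finite_hit {n : ℕ} (hn : 3 ≤ n) (x : EuclideanSpace ℝ (Fin n)) (hx : ∀ j, x j ≠ 0) :
    ∃ F : Fin n → Set (EuclideanSpace ℝ (Fin n)), (∀ i, (F i).Finite ∧ F i ⊆ cell i) ∧
      ∀ u : EuclideanSpace ℝ (Fin n), u ≠ 0 →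
        ∃ i, ∃ a ∈ convexHull ℝ (F i), inner ℝ u (a - x) = 0 := by
  classical
  -- choose for each u
  have hch : ∀ u : EuclideanSpace ℝ (Fin n), ∃ (i : Fin n) (b b' : EuclideanSpace ℝ (Fin n)),
      u ≠ 0 → b ∈ cell i ∧ b' ∈ cell i ∧ 0 < inner ℝ u (b - x) ∧ inner ℝ u (b' - x) < 0 := by
    intro u
    by_cases hu : u = 0
    · exact ⟨⟨0, by omega⟩, 0, 0, fun h => absurd hu h⟩
    · obtain ⟨i, a, ha, hax⟩ := open_hit hn x hx u hu
      have hc : ContinuousAt (fun t : ℝ => a + t • u) 0 := by fun_prop
      have hmem : ∀ᶠ t in nhds (0 : ℝ), a + t • u ∈ cell i := by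
        apply hc.eventually_mem
        simpa using (isOpen_cell i).mem_nhds ha
      rw [Metric.eventually_nhds_iff] at hmem
      obtain ⟨ε, hε, hmem⟩ := hmem
      have hn0 : 0 < inner ℝ u u := by
        rw [real_inner_self_eq_norm_sq]
        have := norm_pos_iff.2 hu
        positivity
      refine ⟨i, a + (ε / 2) • u, a + (-(ε / 2)) • u, fun _ => ⟨?_, ?_, ?_, ?_⟩⟩
      · apply hmem
        rw [Real.dist_eq, sub_zero, abs_of_pos (by linarith)]
        linarith
      · apply hmem
        rw [Real.dist_eq, sub_zero, abs_neg, abs_of_pos (by linarith)]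
        linarith
      · have : a + (ε / 2) • u - x = (a - x) + (ε / 2) • u := by abel
        rw [this, inner_add_right, hax, inner_smul_right]
        have : 0 < ε / 2 := by linarith
        simpa using mul_pos this hn0
      · have : a + (-(ε / 2)) • u - x = (a - x) + (-(ε / 2)) • u := by abel
        rw [this, inner_add_right, hax, inner_smul_right]
        have : 0 < ε / 2 := by linarith
        have := mul_pos this hn0
        linarith
  choose I b b' hI using hch
  let U : EuclideanSpace ℝ (Fin n) → Set (EuclideanSpace ℝ (Fin n)) := fun u =>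
    {w | 0 < inner ℝ w (b u - x) ∧ inner ℝ w (b' u - x) < 0}
  obtain ⟨t, ht, hcov⟩ := (isCompact_sphere (0 : EuclideanSpace ℝ (Fin n)) 1).elim_nhds_subcover U (by
    intro u hu
    have hu0 : u ≠ 0 := by
      rintro rfl
      simp at hu
    obtain ⟨-, -, h3, h4⟩ := hI u hu0
    have c1 : Continuous fun w : EuclideanSpace ℝ (Fin n) => (inner ℝ w (b u - x) : ℝ) := by
      fun_prop
    have c2 : Continuous fun w : EuclideanSpace ℝ (Fin n) => (inner ℝ w (b' u - x) : ℝ) := by
      fun_prop
    have hopen : IsOpen (U u) :=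
      IsOpen.inter (isOpen_lt continuous_const c1) (isOpen_lt c2 continuous_const)
    exact hopen.mem_nhds ⟨h3, h4⟩)
  refine ⟨fun i => {y | ∃ u ∈ t, I u = i ∧ (y = b u ∨ y = b' u)}, ?_, ?_⟩
  · intro i
    refine ⟨?_, ?_⟩
    · apply Set.Finite.subset ((t.finite_toSet.image b).union (t.finite_toSet.image b'))
      rintro y ⟨u, hu, -, rfl | rfl⟩
      · exact Or.inl ⟨u, hu, rfl⟩
      · exact Or.inr ⟨u, hu, rfl⟩
    · rintro y ⟨u, hu, hi, hy⟩
      have hu0 : u ≠ 0 := by
        rintro rfl
        have := ht 0 hu
        simp at this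
      obtain ⟨h1, h2, -, -⟩ := hI u hu0
      rw [hi] at h1 h2
      rcases hy with rfl | rfl
      · exact h1
      · exact h2
  · intro w hw
    have hnw : 0 < ‖w‖ := norm_pos_iff.2 hw
    have hs : (‖w‖⁻¹ • w) ∈ Metric.sphere (0 : EuclideanSpace ℝ (Fin n)) 1 := by
      rw [mem_sphere_zero_iff_norm, norm_smul, norm_inv, norm_norm]
      field_simp
    obtain ⟨u, hu, hwu⟩ := Set.mem_iUnion₂.1 (hcov hs)
    obtain ⟨h1, h2⟩ := hwu
    rw [inner_smul_left] at h1 h2
    simp only [conj_trivial] at h1 h2
    have hpos : 0 < ‖w‖⁻¹ := inv_pos.2 hnw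
    have h1' : 0 < inner ℝ w (b u - x) := by
      by_contra hcon
      nlinarith [not_lt.1 hcon]
    have h2' : inner ℝ w (b' u - x) < 0 := by
      by_contra hcon
      nlinarith [not_lt.1 hcon]
    set p := inner ℝ w (b u - x) with hp
    set q := inner ℝ w (b' u - x) with hq
    have hd : 0 < p - q := by linarith
    refine ⟨I u, ((-q) / (p - q)) • b u + (p / (p - q)) • b' u, ?_, ?_⟩
    · apply (convex_convexHull ℝ _)
      · exact subset_convexHull ℝ _ ⟨u, hu, rfl, Or.inl rfl⟩
      · exact subset_convexHull ℝ _ ⟨u, hu, rfl, Or.inr rfl⟩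
      · apply div_nonneg <;> linarith
      · apply div_nonneg <;> linarith
      · field_simp
        ring
    · have e : ((-q) / (p - q)) • b u + (p / (p - q)) • b' u - x =
          ((-q) / (p - q)) • (b u - x) + (p / (p - q)) • (b' u - x) := by
        have : x = ((-q) / (p - q)) • x + (p / (p - q)) • x := by
          rw [← add_smul]
          have : (-q) / (p - q) + p / (p - q) = 1 := by field_simp; ring
          rw [this, one_smul]
        rw [smul_sub, smul_sub]
        nth_rewrite 1 [this]
        abel
      rw [e, inner_add_right, inner_smul_right, inner_smul_right, ← hp, ← hq]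
      field_simp
      ring

/-- Main theorem. -/
theorem result (n : ℕ) (hn : 3 ≤ n) :
    ∃ A : Fin n → Set (EuclideanSpace ℝ (Fin n)),
      (∀ i, (A i).Nonempty ∧ Convex ℝ (A i) ∧ IsCompact (A i)) ∧
      (∀ i j, i ≠ j → Disjoint (A i) (A j)) ∧
      ∀ (m : ℕ) (C : Fin m → Set (EuclideanSpace ℝ (Fin n))),
        (∀ k, Convex ℝ (C k)) → visualHull (⋃ i, A i) = ⋃ k, C k → 2 ^ n ≤ m := by
  classical
  let pt : (Fin n → Bool) → EuclideanSpace ℝ (Fin n) := fun σ =>
    WithLp.toLp 2 (fun j => if σ j then (1 : ℝ) else -1)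
  have hpt : ∀ σ j, pt σ j = if σ j then (1 : ℝ) else -1 := fun σ j => rfl
  have hpt0 : ∀ σ j, pt σ j ≠ 0 := by
    intro σ j
    rw [hpt]
    split_ifs <;> norm_num
  choose F hF hhit using fun σ => finite_hit hn (pt σ) (hpt0 σ)
  let c : Fin n → EuclideanSpace ℝ (Fin n) := fun i => WithLp.toLp 2 (fun j => if j = i then (1 : ℝ) else -1)
  have hc : ∀ i, c i ∈ cell i := by
    intro i
    refine ⟨by simp [c], ?_⟩
    intro j hj
    simp [c, hj]
  let G : Fin n → Set (EuclideanSpace ℝ (Fin n)) := fun i => insert (c i) (⋃ σ, F σ i)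
  have hGfin : ∀ i, (G i).Finite := fun i =>
    (Set.finite_iUnion fun σ => (hF σ i).1).insert _
  have hGcell : ∀ i, convexHull ℝ (G i) ⊆ cell i := by
    intro i
    apply convexHull_min _ (convex_cell i)
    rintro y (rfl | hy)
    · exact hc i
    · obtain ⟨σ, hσ⟩ := Set.mem_iUnion.1 hy
      exact (hF σ i).2 hσ
  refine ⟨fun i => convexHull ℝ (G i), fun i => ⟨⟨c i, subset_convexHull ℝ _ (Set.mem_insert _ _)⟩,
    convex_convexHull ℝ _, (hGfin i).isCompact_convexHull ℝ⟩, ?_, ?_⟩
  · intro i j hij
    rw [Set.disjoint_left]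
    intro y hyi hyj
    have h1 := (hGcell i hyi).1
    have h2 := (hGcell j hyj).2 i hij
    linarith
  · intro m C hC hhull
    have hin : ∀ σ, pt σ ∈ ⋃ k, C k := by
      intro σ
      rw [← hhull, mem_visualHull]
      intro u hu
      obtain ⟨i, a, ha, hax⟩ := hhit σ u hu
      refine ⟨a, Set.mem_iUnion.2 ⟨i, ?_⟩, hax⟩
      exact convexHull_mono (fun y hy => Set.mem_insert_of_mem _ (Set.mem_iUnion.2 ⟨σ, hy⟩)) ha
    choose f hf using fun σ => Set.mem_iUnion.1 (hin σ)
    have hinj : Function.Injective f := by
      intro σ τ hστ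
      by_contra hne
      obtain ⟨j, hj⟩ := Function.ne_iff.1 hne
      have hmid : ((1 / 2 : ℝ) • pt σ + (1 / 2 : ℝ) • pt τ) ∈ C (f σ) := by
        apply hC (f σ) (hf σ)
        · rw [hστ]; exact hf τ
        · norm_num
        · norm_num
        · norm_num
      have hmid' : ((1 / 2 : ℝ) • pt σ + (1 / 2 : ℝ) • pt τ) ∈ visualHull (⋃ i, convexHull ℝ (G i)) := by
        rw [hhull]
        exact Set.mem_iUnion.2 ⟨_, hmid⟩
      rw [mem_visualHull] at hmid'
      obtain ⟨y, hy, hyx⟩ := hmid' (EuclideanSpace.single j 1) (by simp)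
      rw [EuclideanSpace.inner_single_left] at hyx
      have hz : ((1 / 2 : ℝ) • pt σ + (1 / 2 : ℝ) • pt τ) j = 0 := by
        show (1 / 2 : ℝ) * pt σ j + (1 / 2 : ℝ) * pt τ j = 0
        rw [hpt, hpt]
        cases h1 : σ j <;> cases h2 : τ j <;> simp_all
      have hyj : y j = 0 := by
        have : y j - ((1 / 2 : ℝ) • pt σ + (1 / 2 : ℝ) • pt τ) j = 0 := by simpa using hyx
        rw [hz] at this
        linarith
      obtain ⟨i, hi⟩ := Set.mem_iUnion.1 hy
      have hcell := hGcell i hi
      by_cases hij : j = i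
      · subst hij
        have := hcell.1
        linarith
      · have := hcell.2 j hij
        linarith
    have := Fintype.card_le_of_injective f hinj
    simpa using this

end Pool.Agent.Results.MP_d086ed_co.HullNeedsTwoPowPieces
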